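import Mathlib

open MeasureTheory AddCircle ComplexConjugate
open scoped ENNReal InnerProductSpace

namespace H11.DBR

instance factOne : Fact ((0 : ℝ) < 1) := ⟨one_pos⟩

/-- The unit circle, as `ℝ / ℤ` (the point `t` stands for `exp (2 π i t)`). -/
abbrev T : Type := AddCircle (1 : ℝ)

/-- Normalised arc length. -/
noncomputable abbrev μ : Measure T := haarAddCircle

/-- `L²(T)`. -/
def L2 : Type := Lp ℂ 2 μ

noncomputable instance instNormedL2 : NormedAddCommGroup L2 :=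
  (inferInstance : NormedAddCommGroup (Lp ℂ 2 μ))

noncomputable instance instInnerL2 : InnerProductSpace ℂ L2 :=
  (inferInstance : InnerProductSpace ℂ (Lp ℂ 2 μ))

instance instCompleteL2 : CompleteSpace L2 := (inferInstance : CompleteSpace (Lp ℂ 2 μ))

/-- The function `z^n` as an element of `L²`. -/
noncomputable def mono (n : ℤ) : L2 := fourierLp (T := 1) 2 n

/-- The (a.e. defined) values of an element of `L²`. -/
noncomputable def val (f : Lp ℂ 2 μ) (z : T) : ℂ := f z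

/-- `H²`: the functions in `L²(T)` orthogonal to all `z^n`, `n < 0`. -/
noncomputable def Hardy : Submodule ℂ L2 := (Submodule.span ℂ (mono '' {n | n < 0}))ᗮ

instance instCompleteHardy : CompleteSpace Hardy :=
  (inferInstance : CompleteSpace (Submodule.span ℂ (mono '' {n | n < 0}))ᗮ)

/-- `H^∞` (boundary values): functions in `L^∞(T)` with vanishing negative Fourier
coefficients. -/
def InHinf (b : Lp ℂ ∞ μ) : Prop := ∀ n : ℤ, n < 0 → fourierCoeff (b : T → ℂ) n = 0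

/-- Complex multiplication as a continuous bilinear map. -/
noncomputable def cmul : ℂ →L[ℂ] ℂ →L[ℂ] ℂ := ContinuousLinearMap.mul ℂ ℂ

/-- The pointwise product `φ f` of `φ ∈ L^∞` and `f ∈ L²`. -/
noncomputable def prod (φ : Lp ℂ ∞ μ) (f : L2) : L2 := cmul.holder (μ := μ) (q := 2) 2 φ f

theorem prod_add (φ : Lp ℂ ∞ μ) (f g : L2) : prod φ (f + g) = prod φ f + prod φ g :=
  cmul.holder_add_right (μ := μ) (q := 2) (r := 2) φ f g

theorem prod_smul (φ : Lp ℂ ∞ μ) (c : ℂ) (f : L2) : prod φ (c • f) = c • prod φ f :=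
  cmul.holder_smul_right (μ := μ) (q := 2) (r := 2) c φ f

theorem prod_norm (φ : Lp ℂ ∞ μ) (f : L2) : ‖prod φ f‖ ≤ ‖cmul‖ * ‖φ‖ * ‖f‖ :=
  cmul.norm_holder_apply_apply_le (μ := μ) (q := 2) (r := 2) φ f

/-- Multiplication by `φ ∈ L^∞` on `L²`, as a linear map. -/
noncomputable def mulLin (φ : Lp ℂ ∞ μ) : L2 →ₗ[ℂ] L2 where
  toFun := prod φ
  map_add' := prod_add φ
  map_smul' := prod_smul φ

theorem mulLin_bdd (φ : Lp ℂ ∞ μ) : ∃ C : ℝ, ∀ f : L2, ‖mulLin φ f‖ ≤ C * ‖f‖ :=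
  ⟨_, prod_norm φ⟩

/-- Multiplication by `φ ∈ L^∞` on `L²`, as a bounded operator. -/
noncomputable def mulL (φ : Lp ℂ ∞ μ) : L2 →L[ℂ] L2 :=
  (mulLin φ).mkContinuousOfExistsBound (mulLin_bdd φ)

section Generic

variable {X : Type} [NormedAddCommGroup X] [InnerProductSpace ℂ X]

/-- The compression `f ↦ P_K (A f)` of an operator `A` to a closed subspace `K`. -/
noncomputable def compress (K : Submodule ℂ X) [CompleteSpace K] (A : X →L[ℂ] X) : K →L[ℂ] K :=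
  K.orthogonalProjectionOnto ∘L A ∘L K.subtypeL

/-- The positive square root of an operator on a Hilbert space (Mathlib's `CFC.sqrt`). -/
noncomputable def opSqrt {H : Type} [NormedAddCommGroup H] [InnerProductSpace ℂ H]
    [CompleteSpace H] (A : H →L[ℂ] H) : H →L[ℂ] H :=
  CFC.sqrt A

/-- `(I - A B)^{1/2}`. -/
noncomputable def defectOp {H : Type} [NormedAddCommGroup H] [InnerProductSpace ℂ H]
    [CompleteSpace H] (A B : H →L[ℂ] H) : H →L[ℂ] H :=
  opSqrt (1 - A * B)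

/-- The infimum of the squared range norm `‖g‖²` over the elements `f = D g`, `g ⟂ ker D`, of the
range of `D` that have the property `P`. -/
noncomputable def rangeNormInf {H : Type} [NormedAddCommGroup H] [InnerProductSpace ℂ H]
    (D : H →L[ℂ] H) (P : H → Prop) : ℝ≥0∞ :=
  ⨅ (g : H) (_ : g ∈ (LinearMap.ker (D : H →ₗ[ℂ] H))ᗮ) (_ : P (D g)), ‖g‖ₑ ^ 2

/-- The same for `D = (I - A_K B_K)^{1/2}`, with `A_K`, `B_K` the compressions to `K`. -/
noncomputable def rangeInf (K : Submodule ℂ X) [CompleteSpace K] (A B : X →L[ℂ] X)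
    (P : X → Prop) : ℝ≥0∞ :=
  rangeNormInf (defectOp (compress K A) (compress K B)) fun f => P f

end Generic

/-- `c_{b,1}(E)`. The compressions of `mulL b`, `mulL (star b)` to `H²` are the Toeplitz
operators `T_b`, `T_{conj b}`. -/
noncomputable def cap1 (b : Lp ℂ ∞ μ) (E : Set T) : ℝ≥0∞ :=
  rangeInf Hardy (mulL b) (mulL (star b))
    fun f => ∃ U : Set T, IsOpen U ∧ E ⊆ U ∧ ∀ᵐ z ∂μ, z ∈ U → 1 ≤ ‖val f z‖

/-- `c_{b,2}(E)`. -/
noncomputable def cap2 (b : Lp ℂ ∞ μ) (E : Set T) : ℝ≥0∞ :=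
  rangeInf Hardy (mulL b) (mulL (star b))
    fun f => ∃ U : Set T, IsOpen U ∧ E ⊆ U ∧ ∀ᵐ z ∂μ, z ∈ U → ‖val f z‖ = 1

noncomputable abbrev H2 : Submodule ℂ (Lp ℂ 2 μ) :=
  (Submodule.span ℂ ((fun n : ℤ => fourierLp (T := 1) 2 n) '' {n | n < 0}))ᗮ

noncomputable def mulOp (φ : Lp ℂ ∞ μ) : Lp ℂ 2 μ →L[ℂ] Lp ℂ 2 μ := mulL φ

theorem mulOp_apply (φ : Lp ℂ ∞ μ) (f : Lp ℂ 2 μ) :
    mulOp φ f = (ContinuousLinearMap.mul ℂ ℂ).holder 2 φ f := rfl

noncomputable def toeplitz (φ : Lp ℂ ∞ μ) : H2 →L[ℂ] H2 :=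
  H2.orthogonalProjectionOnto ∘L mulOp φ ∘L H2.subtypeL

noncomputable def defect (b : Lp ℂ ∞ μ) : H2 →L[ℂ] H2 :=
  opSqrt (1 - toeplitz b * toeplitz (star b))

theorem cap1_eq (b : Lp ℂ ∞ μ) (E : Set T) : cap1 b E =
  ⨅ (g : H2) (_ : g ∈ (LinearMap.ker (defect b : H2 →ₗ[ℂ] H2))ᗮ)
    (_ : ∃ U : Set T, IsOpen U ∧ E ⊆ U ∧
      ∀ᵐ z ∂μ, z ∈ U → 1 ≤ ‖((defect b g : H2) : Lp ℂ 2 μ) z‖), ‖g‖ₑ ^ 2 := rfl

theorem cap2_eq (b : Lp ℂ ∞ μ) (E : Set T) : cap2 b E =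
  ⨅ (g : H2) (_ : g ∈ (LinearMap.ker (defect b : H2 →ₗ[ℂ] H2))ᗮ)
    (_ : ∃ U : Set T, IsOpen U ∧ E ⊆ U ∧
      ∀ᵐ z ∂μ, z ∈ U → ‖((defect b g : H2) : Lp ℂ 2 μ) z‖ = 1), ‖g‖ₑ ^ 2 := rfl

/-! ### General facts -/

noncomputable abbrev L (f : C(T, ℂ)) : Lp ℂ 2 μ := ContinuousMap.toLp 2 μ ℂ f

noncomputable abbrev e (n : ℤ) : C(T, ℂ) := fourier n

theorem mem_H2 (f : Lp ℂ 2 μ) : f ∈ H2 ↔ ∀ n : ℤ, n < 0 → ⟪L (e n), f⟫_ℂ = 0 := by
  rw [Submodule.mem_orthogonal]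
  constructor
  · intro h n hn
    exact h _ (Submodule.subset_span ⟨n, hn, rfl⟩)
  · intro h u hu
    induction hu using Submodule.span_induction with
    | mem x hx => obtain ⟨n, hn, rfl⟩ := hx; exact h n hn
    | zero => simp
    | add x y _ _ hx hy => rw [inner_add_left, hx, hy, add_zero]
    | smul a x _ hx => rw [inner_smul_left, hx, mul_zero]

theorem mulOp_ae (φ : Lp ℂ ∞ μ) (f : Lp ℂ 2 μ) :
    mulOp φ f =ᵐ[μ] fun x => φ x * f x := by
  rw [mulOp_apply]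
  exact (ContinuousLinearMap.mul ℂ ℂ).coeFn_holder φ f

theorem inner_mulOp (φ : Lp ℂ ∞ μ) (f g : Lp ℂ 2 μ) :
    ⟪mulOp (star φ) f, g⟫_ℂ = ⟪f, mulOp φ g⟫_ℂ := by
  rw [L2.inner_def, L2.inner_def]
  apply integral_congr_ae
  filter_upwards [mulOp_ae (star φ) f, mulOp_ae φ g, Lp.coeFn_star φ] with x h1 h2 h3
  rw [h1, h2, h3]
  simp only [RCLike.inner_apply', Pi.star_apply, map_mul, RCLike.star_def, RCLike.conj_conj]
  ring

theorem inner_toeplitz_right (φ : Lp ℂ ∞ μ) (u v : H2) :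
    ⟪u, toeplitz φ v⟫_ℂ = ⟪(u : Lp ℂ 2 μ), mulOp φ v⟫_ℂ := by
  unfold toeplitz
  simp only [ContinuousLinearMap.comp_apply, Submodule.subtypeL_apply]
  rw [Submodule.inner_orthogonalProjectionOnto_eq_of_mem_left]

theorem inner_toeplitz_left (φ : Lp ℂ ∞ μ) (u v : H2) :
    ⟪toeplitz φ u, v⟫_ℂ = ⟪mulOp φ u, (v : Lp ℂ 2 μ)⟫_ℂ := by
  unfold toeplitz
  simp only [ContinuousLinearMap.comp_apply, Submodule.subtypeL_apply]
  rw [Submodule.inner_orthogonalProjectionOnto_eq_of_mem_right]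

theorem toeplitz_star (φ : Lp ℂ ∞ μ) : toeplitz (star φ) = star (toeplitz φ) := by
  rw [ContinuousLinearMap.star_eq_adjoint, ContinuousLinearMap.eq_adjoint_iff]
  intro u v
  rw [inner_toeplitz_left, inner_toeplitz_right, inner_mulOp]

theorem norm_toeplitz (φ : Lp ℂ ∞ μ) (h : ‖φ‖ = 1) : ‖toeplitz φ‖ ≤ 1 := by
  refine ContinuousLinearMap.opNorm_le_bound _ zero_le_one fun u => ?_
  unfold toeplitz
  simp only [ContinuousLinearMap.comp_apply, Submodule.subtypeL_apply]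
  refine ((H2.orthogonalProjectionOnto).le_opNorm _).trans ?_
  have h1 := H2.orthogonalProjectionOnto_norm_le
  have h2 : ‖mulOp φ u‖ ≤ ‖u‖ := by
    rw [mulOp_apply]
    refine ((ContinuousLinearMap.mul ℂ ℂ).norm_holder_apply_apply_le φ (u : Lp ℂ 2 μ)).trans ?_
    rw [h, ContinuousLinearMap.opNorm_mul]
    simp
  exact mul_le_mul h1 h2 (norm_nonneg _) zero_le_one

theorem opSqrt_sq {H : Type} [NormedAddCommGroup H] [InnerProductSpace ℂ H]
    [CompleteSpace H] (A : H →L[ℂ] H) (h : ‖A‖ ≤ 1) :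
    opSqrt (1 - A * star A) * opSqrt (1 - A * star A) = 1 - A * star A := by
  unfold opSqrt
  apply CFC.sqrt_mul_sqrt_self
  rw [sub_nonneg]
  refine CStarAlgebra.mul_star_le_algebraMap_norm_sq.trans ?_
  have h1 : ‖A‖ ^ 2 ≤ 1 := by
    have h0 := norm_nonneg A
    nlinarith
  rw [Algebra.algebraMap_eq_smul_one]
  calc ‖A‖ ^ 2 • (1 : H →L[ℂ] H) ≤ (1 : ℝ) • (1 : H →L[ℂ] H) :=
        smul_le_smul_of_nonneg_right h1 zero_le_one
    _ = 1 := one_smul _ _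

theorem opSqrt_symm {H : Type} [NormedAddCommGroup H] [InnerProductSpace ℂ H]
    [CompleteSpace H] (A : H →L[ℂ] H) (u v : H) : ⟪opSqrt A u, v⟫_ℂ = ⟪u, opSqrt A v⟫_ℂ := by
  have h : IsSelfAdjoint (opSqrt A) := IsSelfAdjoint.of_nonneg (CFC.sqrt_nonneg _)
  exact h.isSymmetric u v

theorem defect_sq (φ : Lp ℂ ∞ μ) (h : ‖φ‖ = 1) :
    defect φ * defect φ = 1 - toeplitz φ * toeplitz (star φ) := by
  unfold defect
  rw [toeplitz_star]
  exact opSqrt_sq _ (norm_toeplitz φ h)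

theorem defect_symm (φ : Lp ℂ ∞ μ) (u v : H2) : ⟪defect φ u, v⟫_ℂ = ⟪u, defect φ v⟫_ℂ :=
  opSqrt_symm _ u v

/-! ### The Blaschke factor with zero `1/2` -/

theorem e_add (m n : ℤ) : e (m + n) = e m * e n := by
  ext x
  simp only [e, ContinuousMap.mul_apply]
  exact fourier_add

theorem e_zero : e 0 = 1 := by
  ext x
  simp only [e, ContinuousMap.one_apply]
  exact fourier_zero

theorem e_pow (d : ℤ) (n : ℕ) : e d ^ n = e (d * n) := by
  induction n with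
  | zero => simp [e_zero]
  | succ n ih => rw [pow_succ, ih, ← e_add]; congr 1; push_cast; ring

theorem nrm (d : ℤ) : ‖(1 / 2 : ℂ) • e d‖ < 1 := by
  rw [norm_smul, fourier_norm]
  norm_num

noncomputable def r (d : ℤ) : C(T, ℂ) := ∑' n : ℕ, ((1 / 2 : ℂ) • e d) ^ n

theorem r_mul (d : ℤ) : r d * (1 - (1 / 2 : ℂ) • e d) = 1 :=
  geom_series_mul_neg _ (nrm d)

theorem kill (Λ : C(T, ℂ) →L[ℂ] ℂ) (m d : ℤ) (h : ∀ n : ℕ, Λ (e (m + d * n)) = 0) :
    Λ (e m * r d) = 0 := by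
  have hs : HasSum (fun n : ℕ => ((1 / 2 : ℂ) • e d) ^ n) (r d) :=
    (summable_geometric_of_norm_lt_one (nrm d)).hasSum
  have h1 := (hs.mul_left (e m)).mapL Λ
  have h2 : (fun n : ℕ => Λ (e m * ((1 / 2 : ℂ) • e d) ^ n)) = fun _ => 0 := by
    funext n
    rw [smul_pow, e_pow, mul_smul_comm, ← e_add, map_smul, h n, smul_zero]
  rw [h2] at h1
  exact h1.unique hasSum_zero

theorem ee (m n : ℤ) : ⟪L (e m), L (e n)⟫_ℂ = if m = n then 1 else 0 :=
  (orthonormal_iff_ite.1 (orthonormal_fourier (T := 1))) m n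

noncomputable def lam (u : Lp ℂ 2 μ) : C(T, ℂ) →L[ℂ] ℂ :=
  innerSL ℂ u ∘L ContinuousMap.toLp 2 μ ℂ

theorem lam_apply (u : Lp ℂ 2 μ) (f : C(T, ℂ)) : lam u f = ⟪u, L f⟫_ℂ := rfl

theorem er (j m : ℤ) (h : j < m) : ⟪L (e j), L (e m * r 1)⟫_ℂ = 0 := by
  rw [← lam_apply]
  apply kill
  intro n
  rw [lam_apply, ee, if_neg (by omega)]

noncomputable def b0 : C(T, ℂ) := e 1 * r 1 - (1 / 2 : ℂ) • (e 0 * r 1)

noncomputable def bb : Lp ℂ ∞ μ := ContinuousMap.toLp ∞ μ ℂ b0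

theorem bb_ae : bb =ᵐ[μ] b0 := ContinuousMap.coeFn_toLp μ b0

theorem r_pt (d : ℤ) (x : T) : r d x * (1 - 1 / 2 * e d x) = 1 := by
  have := congrArg (fun f : C(T, ℂ) => f x) (r_mul d)
  simpa using this

theorem e_conj (x : T) : conj (e 1 x) = e (-1) x := fourier_neg.symm

theorem e_mul_conj (x : T) : e 1 x * e (-1) x = 1 := by
  have := congrArg (fun f : C(T, ℂ) => f x) (e_add 1 (-1))
  simp only [add_neg_cancel, e_zero, ContinuousMap.one_apply, ContinuousMap.mul_apply] at this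
  exact this.symm

theorem conj_r (x : T) : conj (r 1 x) = r (-1) x := by
  have h1 := congrArg conj (r_pt 1 x)
  simp only [map_mul, map_sub, map_one, map_div₀, map_ofNat, e_conj] at h1
  have h2 := r_pt (-1) x
  have h3 : (1 - 1 / 2 * e (-1) x) ≠ 0 := by
    intro h; rw [h] at h2; simp at h2
  exact mul_right_cancel₀ h3 (h1.trans h2.symm)

theorem b0_pt (x : T) : b0 x = (e 1 x - 1 / 2) * r 1 x := by
  simp only [b0, e_zero, one_mul, ContinuousMap.sub_apply, ContinuousMap.mul_apply,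
    ContinuousMap.smul_apply, smul_eq_mul]
  ring

theorem b0_conj (x : T) : conj (b0 x) * b0 x = 1 := by
  rw [b0_pt]
  simp only [map_mul, map_sub, map_div₀, map_one, map_ofNat, e_conj, conj_r]
  have h1 := r_pt 1 x
  have h2 := r_pt (-1) x
  have h3 := e_mul_conj x
  have e1 : e (-1) x - 1 / 2 = e (-1) x * (1 - 1 / 2 * e 1 x) := by linear_combination (1 / 2) * h3
  have e2 : e 1 x - 1 / 2 = e 1 x * (1 - 1 / 2 * e (-1) x) := by linear_combination (1 / 2) * h3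
  rw [e1]
  nth_rewrite 1 [e2]
  calc _ = (e 1 x * e (-1) x) * (r 1 x * (1 - 1 / 2 * e 1 x)) *
        (r (-1) x * (1 - 1 / 2 * e (-1) x)) := by ring
    _ = 1 := by rw [h1, h2, h3]; ring

theorem b0_norm (x : T) : ‖b0 x‖ = 1 := by
  have h := congrArg norm (b0_conj x)
  rw [norm_mul, RCLike.norm_conj, norm_one] at h
  have h0 := norm_nonneg (b0 x)
  nlinarith

theorem bb_norm : ‖bb‖ = 1 := by
  rw [Lp.norm_def]
  have : eLpNorm bb ∞ μ = eLpNorm (fun _ : T => (1 : ℂ)) ∞ μ := by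
    apply eLpNorm_congr_norm_ae
    filter_upwards [bb_ae] with x hx
    rw [hx, b0_norm, norm_one]
  rw [this, eLpNorm_exponent_top, eLpNormEssSup_const _ (IsProbabilityMeasure.ne_zero μ)]
  simp

theorem bb_hinf : InHinf bb := by
  intro n hn
  rw [fourierCoeff_congr_ae bb_ae, ← fourierCoeff_toLp, ← fourierBasis_repr,
    HilbertBasis.repr_apply_apply, coe_fourierBasis]
  change ⟪L (e n), L b0⟫_ℂ = 0
  unfold b0 L
  rw [map_sub, map_smul, inner_sub_right, inner_smul_right, er n 1 (by omega), er n 0 hn]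
  simp

theorem mulOp_L (f : C(T, ℂ)) : mulOp bb (L f) = L (b0 * f) := by
  apply Lp.ext
  filter_upwards [mulOp_ae bb (L f), bb_ae, ContinuousMap.coeFn_toLp (p := 2) (𝕜 := ℂ) μ f,
    ContinuousMap.coeFn_toLp (p := 2) (𝕜 := ℂ) μ (b0 * f)] with x h1 h2 h3 h4
  rw [h1, h2, h3, h4]
  simp

theorem mulOp_star_L (f : C(T, ℂ)) : mulOp (star bb) (L f) = L (star b0 * f) := by
  apply Lp.ext
  filter_upwards [mulOp_ae (star bb) (L f), bb_ae, Lp.coeFn_star bb,
    ContinuousMap.coeFn_toLp (p := 2) (𝕜 := ℂ) μ f,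
    ContinuousMap.coeFn_toLp (p := 2) (𝕜 := ℂ) μ (star b0 * f)] with x h1 h2 h5 h3 h4
  rw [h1, h5, h3, h4]
  simp [h2]

theorem toeplitz_of_mem (φ : Lp ℂ ∞ μ) (u v : H2) (h : mulOp φ u = v) : toeplitz φ u = v := by
  unfold toeplitz
  simp only [ContinuousLinearMap.comp_apply, Submodule.subtypeL_apply]
  rw [h]
  exact Submodule.orthogonalProjectionOnto_mem_subspace_eq_self v

theorem kk_mem : L (r 1) ∈ H2 := by
  rw [mem_H2]
  intro n hn
  have := er n 0 hn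
  rwa [e_zero, one_mul] at this

noncomputable def kk : H2 := ⟨L (r 1), kk_mem⟩

theorem star_kk : toeplitz (star bb) kk = 0 := by
  apply ext_inner_left ℂ
  intro u
  rw [inner_toeplitz_right, inner_zero_right]
  change ⟪(u : Lp ℂ 2 μ), mulOp (star bb) (L (r 1))⟫_ℂ = 0
  rw [mulOp_star_L]
  have : star b0 * r 1 = e (-1) * r (-1) := by
    ext x
    simp only [ContinuousMap.mul_apply, ContinuousMap.star_apply, RCLike.star_def]
    rw [b0_pt]
    simp only [map_mul, map_sub, map_div₀, map_one, map_ofNat, e_conj, conj_r]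
    have h1 := r_pt 1 x
    have h3 := e_mul_conj x
    linear_combination (e (-1) x * r (-1) x) * h1 + (1 / 2 * r (-1) x * r 1 x) * h3
  rw [this, ← lam_apply]
  apply kill
  intro n
  rw [lam_apply, inner_eq_zero_symm]
  exact (mem_H2 _).1 u.2 _ (by omega)

theorem p_mem (m : ℤ) (hm : 0 ≤ m) (j : ℤ) (hj : 0 ≤ j) :
    L (e m - (1 / 2 : ℂ) • e j) ∈ H2 := by
  rw [mem_H2]
  intro n hn
  unfold L
  rw [map_sub, map_smul, inner_sub_right, inner_smul_right, ee, ee, if_neg (by omega),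
    if_neg (by omega)]
  simp

/-- `(1 - z/2) z^n` -/
noncomputable def hh (n : ℕ) : H2 :=
  ⟨L (e n - (1 / 2 : ℂ) • e (n + 1)), p_mem _ (by omega) _ (by omega)⟩

/-- `(z - 1/2) z^n` -/
noncomputable def pp (n : ℕ) : H2 :=
  ⟨L (e (n + 1) - (1 / 2 : ℂ) • e n), p_mem _ (by omega) _ (by omega)⟩

theorem b0_hh (n : ℤ) : b0 * (e n - (1 / 2 : ℂ) • e (n + 1)) = e (n + 1) - (1 / 2 : ℂ) • e n := by
  ext x
  simp only [e_add, ContinuousMap.mul_apply, ContinuousMap.sub_apply, ContinuousMap.smul_apply,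
    smul_eq_mul]
  rw [b0_pt]
  have h1 := r_pt 1 x
  linear_combination (e n x * (e 1 x - 1 / 2)) * h1

theorem T_hh (n : ℕ) : toeplitz bb (hh n) = pp n := by
  apply toeplitz_of_mem
  change mulOp bb (L _) = L _
  rw [mulOp_L, b0_hh]

theorem T_pp (n : ℕ) : toeplitz (star bb) (pp n) = hh n := by
  apply toeplitz_of_mem
  change mulOp (star bb) (L _) = L _
  rw [mulOp_star_L, ← b0_hh, ← mul_assoc]
  have : star b0 * b0 = 1 := by
    ext x
    simp only [ContinuousMap.mul_apply, ContinuousMap.star_apply, RCLike.star_def,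
      ContinuousMap.one_apply]
    exact b0_conj x
  rw [this, one_mul]

theorem D_pp (n : ℕ) : defect bb (pp n) = 0 := by
  have h := congrArg (fun A : H2 →L[ℂ] H2 => A (pp n)) (defect_sq bb bb_norm)
  simp only [ContinuousLinearMap.mul_apply, ContinuousLinearMap.sub_apply,
    ContinuousLinearMap.one_apply, T_pp, T_hh, sub_self] at h
  rw [← inner_self_eq_zero (𝕜 := ℂ), defect_symm, h, inner_zero_right]

theorem DD_kk : defect bb (defect bb kk) = kk := by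
  have h := congrArg (fun A : H2 →L[ℂ] H2 => A kk) (defect_sq bb bb_norm)
  simpa only [ContinuousLinearMap.mul_apply, ContinuousLinearMap.sub_apply,
    ContinuousLinearMap.one_apply, star_kk, map_zero, sub_zero] using h

theorem rec_coeff (g : H2) (n : ℕ) :
    ⟪L (e (n + 1)), ((defect bb g : H2) : Lp ℂ 2 μ)⟫_ℂ =
      1 / 2 * ⟪L (e n), ((defect bb g : H2) : Lp ℂ 2 μ)⟫_ℂ := by
  have h : ⟪pp n, defect bb g⟫_ℂ = 0 := by rw [← defect_symm, D_pp, inner_zero_left]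
  change ⟪L (e (n + 1) - (1 / 2 : ℂ) • e n), ((defect bb g : H2) : Lp ℂ 2 μ)⟫_ℂ = 0 at h
  unfold L at h ⊢
  rw [map_sub, map_smul, inner_sub_left, inner_smul_left] at h
  simp only [map_div₀, map_one, map_ofNat] at h
  exact sub_eq_zero.1 h

theorem kk_zero : ⟪L (e 0), L (r 1)⟫_ℂ = 1 := by
  have h : r 1 = e 0 + (1 / 2 : ℂ) • (e 1 * r 1) := by
    have := r_mul 1
    rw [e_zero, ← this, mul_sub, mul_one, mul_smul_comm, mul_comm (r 1) (e 1)]
    abel
  rw [h]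
  unfold L
  rw [map_add, map_smul, inner_add_right, inner_smul_right, er 0 1 (by omega), ee]
  simp

theorem range_D (g : H2) : ∃ c : ℂ, ((defect bb g : H2) : Lp ℂ 2 μ) = c • L (r 1) := by
  set f : Lp ℂ 2 μ := ((defect bb g : H2) : Lp ℂ 2 μ) with hf
  refine ⟨⟪L (e 0), f⟫_ℂ, ?_⟩
  have hk : ∀ n : ℕ, ⟪L (e (n + 1)), L (r 1)⟫_ℂ = 1 / 2 * ⟪L (e n), L (r 1)⟫_ℂ := by
    intro n
    have := rec_coeff (defect bb kk) n
    rwa [DD_kk] at this
  have hn : ∀ n : ℕ, ⟪L (e n), f⟫_ℂ = ⟪L (e 0), f⟫_ℂ * ⟪L (e n), L (r 1)⟫_ℂ := by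
    intro n
    induction n with
    | zero => simp only [Nat.cast_zero]; rw [kk_zero, mul_one]
    | succ n ih =>
      push_cast
      rw [hk n, hf, rec_coeff g n, ← hf, ih]
      ring
  apply (fourierBasis (T := 1)).repr.injective
  ext i
  rw [HilbertBasis.repr_apply_apply, HilbertBasis.repr_apply_apply, coe_fourierBasis,
    inner_smul_right]
  change ⟪L (e i), f⟫_ℂ = _ * ⟪L (e i), L (r 1)⟫_ℂ
  rcases lt_or_ge i 0 with hi | hi
  · rw [(mem_H2 _).1 (defect bb g).2 i hi, (mem_H2 _).1 kk_mem i hi, mul_zero]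
  · obtain ⟨n, rfl⟩ := Int.eq_ofNat_of_zero_le hi
    exact hn n

theorem cap2_top : cap2 bb Set.univ = ∞ := by
  rw [cap2_eq]
  simp only [iInf_eq_top]
  rintro g - ⟨U, -, hU, hae⟩
  exfalso
  obtain ⟨c, hc⟩ := range_D g
  rw [hc] at hae
  have h1 : (fun x => ‖c * r 1 x‖) =ᵐ[μ] fun _ => (1 : ℝ) := by
    filter_upwards [hae, Lp.coeFn_smul c (L (r 1)),
      ContinuousMap.coeFn_toLp (p := 2) (𝕜 := ℂ) μ (r 1)] with x h2 h3 h4
    have := h2 (hU (Set.mem_univ x))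
    rw [h3, Pi.smul_apply, h4, smul_eq_mul] at this
    exact this
  have h2 : (fun x => ‖c * r 1 x‖) = fun _ => (1 : ℝ) :=
    (Continuous.ae_eq_iff_eq μ (by fun_prop) continuous_const).1 h1
  have a0 : e 1 (0 : T) = 1 := fourier_eval_zero 1
  have a1 : e 1 ((0 : T) + ((1 / 2 / (1 : ℤ) : ℝ) : T)) = -1 := by
    have := fourier_add_half_inv_index (T := 1) (n := 1) one_ne_zero one_pos (0 : T)
    rw [fourier_eval_zero] at this
    exact this
  have r0 : r 1 (0 : T) = 2 := by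
    have := r_pt 1 0
    rw [a0] at this
    linear_combination 2 * this
  have r1 : r 1 ((0 : T) + ((1 / 2 / (1 : ℤ) : ℝ) : T)) = 2 / 3 := by
    have := r_pt 1 ((0 : T) + ((1 / 2 / (1 : ℤ) : ℝ) : T))
    rw [a1] at this
    linear_combination (2 / 3) * this
  have k0 := congrFun h2 0
  have k1 := congrFun h2 ((0 : T) + ((1 / 2 / (1 : ℤ) : ℝ) : T))
  simp only [r0, r1, norm_mul, norm_div] at k0 k1
  norm_num at k0 k1
  linarith

theorem cap1_lt : cap1 bb Set.univ < ∞ := by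
  rw [cap1_eq]
  refine lt_of_le_of_lt (iInf_le_of_le ((2 : ℂ) • defect bb kk) (iInf_le_of_le ?_
    (iInf_le_of_le ?_ le_rfl))) ?_
  · rw [Submodule.mem_orthogonal]
    intro u hu
    have hu' : defect bb u = 0 := hu
    rw [inner_smul_right, ← defect_symm, hu', inner_zero_left, mul_zero]
  · refine ⟨Set.univ, isOpen_univ, le_rfl, ?_⟩
    rw [map_smul, DD_kk]
    change ∀ᵐ z ∂μ, z ∈ Set.univ → 1 ≤ ‖((2 : ℂ) • L (r 1)) z‖
    filter_upwards [Lp.coeFn_smul (2 : ℂ) (L (r 1)),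
      ContinuousMap.coeFn_toLp (p := 2) (𝕜 := ℂ) μ (r 1)] with x h3 h4 _
    rw [h3, Pi.smul_apply, h4, smul_eq_mul, norm_mul]
    have h5 := congrArg norm (r_pt 1 x)
    rw [norm_mul, norm_one] at h5
    have h6 : ‖e 1 x‖ = 1 := by simp [e]
    have h7 : ‖1 - 1 / 2 * e 1 x‖ ≤ 2 := by
      refine (norm_sub_le _ _).trans ?_
      rw [norm_mul, h6]
      norm_num
    have h8 := norm_nonneg (r 1 x)
    have h9 : ‖(2 : ℂ)‖ = 2 := by simp
    rw [h9]
    nlinarith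
  · exact ENNReal.pow_lt_top enorm_lt_top

end H11.DBR

namespace Pool.Agent.Results.MP_4f6fd6_an.Blaschke

open H11.DBR

theorem result :
    ∃ b : Lp ℂ ∞ μ, InHinf b ∧ ‖b‖ = 1 ∧
      (∃ E : Set T, cap1 b E < ∞ ∧ cap2 b E = ∞) ∧
      ¬ ∃ A : ℝ, 0 < A ∧ ∀ E : Set T, cap2 b E ≤ ENNReal.ofReal A * cap1 b E := by
  refine ⟨bb, bb_hinf, bb_norm, ⟨Set.univ, cap1_lt, cap2_top⟩, ?_⟩
  rintro ⟨A, -, hA⟩
  have h := hA Set.univ
  rw [cap2_top, top_le_iff] at h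
  exact (ENNReal.mul_lt_top ENNReal.ofReal_lt_top cap1_lt).ne h

end Pool.Agent.Results.MP_4f6fd6_an.Blaschke
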